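import Pool.Agent.Helper11Z.Main

/-!
# The index of the Fitting subgroup and the zeros in the rows of the character table
-/

set_option autoImplicit false

namespace Pool.Agent.Results.MP_ad7422_al.FittingIndexBound

/-- `F` is the Fitting subgroup: the largest normal nilpotent subgroup. -/
def IsFitting {G : Type} [Group G] (F : Subgroup G) : Prop :=
  F.Normal ∧ Group.IsNilpotent F ∧
    ∀ N : Subgroup G, N.Normal → Group.IsNilpotent N → N ≤ F

/-- The number of conjugacy classes on which `χ` takes the value `0`. -/
noncomputable def zeros {G : Type} [Group G] (χ : G → ℂ) : ℕ :=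
  {c : ConjClasses G | ∀ g : G, ConjClasses.mk g = c → χ g = 0}.ncard

/-- The irreducible complex characters of `G`. -/
def Irr (G : Type) [Group G] : Set (G → ℂ) :=
  {χ | ∃ V : FDRep ℂ G, CategoryTheory.Simple V ∧ V.character = χ}

/-- `m(G)`, the largest number of zeros in a row of the character table of `G`. -/
noncomputable def maxZeros (G : Type) [Group G] : ℕ := sSup (zeros '' Irr G)

/-- The index of the Fitting subgroup is bounded in terms of the largest number of zeros in a row
of the character table and of the index of the solvable radical. -/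
theorem result : ∃ f : ℕ → ℕ → ℕ, ∀ (G : Type) [Group G] [Finite G] (F R : Subgroup G),
    IsFitting F → R.Normal → Group.IsSolvable R → F.index ≤ f (maxZeros G) R.index := by
  refine ⟨Pool.Agent.Helper11Z.bdF, ?_⟩
  intro G _ _ F R hF hR hRs
  have hM : ∀ V : FDRep ℂ G, CategoryTheory.Simple V →
      Pool.Agent.Helper11Z.zs V.character ≤ maxZeros G := by
    intro V hV
    apply le_csSup
    · refine ⟨Nat.card (ConjClasses G), ?_⟩
      rintro _ ⟨χ, _, rfl⟩
      rw [← Set.ncard_univ]
      exact Set.ncard_le_ncard (Set.subset_univ _) (Set.toFinite _)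
    · exact ⟨V.character, ⟨V, hV, rfl⟩, rfl⟩
  obtain ⟨P, hP1, hP2, hP3⟩ := Pool.Agent.Helper11Z.main (maxZeros G) hM R hR hRs
  refine le_trans ?_ hP3
  apply Nat.le_of_dvd (Nat.pos_of_ne_zero P.index_ne_zero_of_finite)
  exact Subgroup.index_dvd_of_le (hF.2.2 P hP1 hP2)

end Pool.Agent.Results.MP_ad7422_al.FittingIndexBound
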